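import Pool.Agent.H26.Big.Concl
import Pool.Graph.R_seed8.Results.MP_bf81c2_nt.LinnikExponent

/-!
# A lower bound for the number of extensions of degree `n` of every number field, in windows

Let `K` be a number field, `n ≥ 3`, and let `p ≥ 3` be a divisor of `n` (for instance the least prime
factor of an odd `n`, or `p = n`). Let `e(p) = 1/2 + min (1/2, (p-1) / (p (p-1) - ⌊(p+1)²/4⌋))`, so
`e(3) = e(4) = 1`, `e(7) = 19/26`, and `e(p) = 1/2 + (4 + o(1)) / (3p)`. Let `s < e(p)`. We show: there is
`δ > 0` such that for all large `X` there is `Y` between `X ^ δ` and `X` such that `K` has at least `Y ^ s`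
extensions of degree `n` with absolute discriminant at most `Y`. In particular `N_{n,K}(X)` is not
`O(X ^ s)`.

The proof for `p ≥ 4` (elementary). Let `F/K` be an extension of degree `n/p`, `d = [F : ℚ]`, `T` large,
and consider the monic polynomials `f` of degree `p` over the integers of `F` with the coefficients of
`f - (x^p - T^(2p))` of size `≤ c T^(2(p-i))` at `x^i` (so all roots have size about `T²`), with congruence
conditions such that they are irreducible with the symmetric group, and with a given double root modulo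
a large number: `m² ∣ f(r)` and `m ∣ f'(r)`, where `m` is squarefree of size `P` and `r` runs over the
numbers of size `P`.

* Let `e = ⌊(p-1)/2⌋` and consider the lattice of the polynomials `g` of degree `≤ e` with `m ∣ g(r)`,
  scaled by `T^(p-2i)` at `x^i`. For `P = T^(κ-ε)`, `κ = ⌊(p+1)²/4⌋`, most pairs `(m,r)` are good: this
  lattice has a basis of size `≤ c` (otherwise it has a very short vector, and these are rare since `m`
  divides the nonzero number `g(r)`). Products of two such `g` are double at `r` modulo `m`, and reducing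
  modulo these products shows that for a good pair the number of `f` is at least
  `c T^(d p (p+1)) / P^(3d)`. Every `f` occurs for at most `T^ε` pairs, as `m` divides its discriminant.
* If `θ` is a root of `f`, `(x - r) q = f - f(r)`, then `ψ = q(θ)/m` is integral. For a good pair every
  element of `O_F[θ] + O_F ψ` of size `O(T²)` is in `O_F + O_F θ`: multiplying it by a `g` as above gives an
  element of `O_F[θ]` whose top coordinate is too small, hence zero. By the pigeonhole principle `L = F(θ)`
  has at most `O(T^(2d) T^(d p (p-1)) P^(-d) |d_L|^(-1/2))` integers of size `O(T²)`.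
* Counting the `f` in two ways gives `∑ |d_L|^(-1/2) ≥ T^(2d(p-1) - ε)`, the sum over the `L` with
  `|d_L| ≤ X = C T^(2d(p(p-1) - κ + ε))`. A dyadic decomposition gives the result.

For `p = 3` polynomials with leading coefficient of the size of the other coefficients are used instead.
-/

set_option autoImplicit false

open Filter

namespace Pool.Agent.Results.MP_bf81c2_nt.DivisorWindow

/-- The exponent `e(p) = 1/2 + min (1/2, (p-1) / (p (p-1) - ⌊(p+1)²/4⌋))`. -/
noncomputable def expo (p : ℕ) : ℝ :=
  1 / 2 + min (1 / 2) (((p : ℝ) - 1) / ((p : ℝ) * ((p : ℝ) - 1) - (((p + 1) ^ 2 / 4 : ℕ) : ℝ)))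

/-- The extensions of degree `n` of the number field `K` inside the algebraic closure of `K` whose
absolute discriminant has absolute value at most `X`. -/
def Fields (K : Type) [Field K] [NumberField K] (n : ℕ) (X : ℝ) :
    Set (IntermediateField K (AlgebraicClosure K)) :=
  {L | Module.finrank K L = n ∧
    ∃ h : NumberField L, ((|@NumberField.discr L _ h| : ℤ) : ℝ) ≤ X}

/-- Let `K` be a number field, `n ≥ 1`, and let `p ≥ 3` be a divisor of `n`. Let `s < e(p)`.
Then there is `δ > 0` such that for all large `X` there is `Y` with `X ^ δ ≤ Y ≤ X` such that the number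
of the extensions of degree `n` of `K` with absolute discriminant at most `Y` is (finite and) at least
`Y ^ s`. -/
theorem result :
    ∀ (K : Type) [Field K] [NumberField K] (n p : ℕ), 1 ≤ n → 3 ≤ p → p ∣ n →
      ∀ s : ℝ, s < expo p →
      ∃ δ : ℝ, 0 < δ ∧ ∀ᶠ X : ℝ in atTop, ∃ Y : ℝ, X ^ δ ≤ Y ∧ Y ≤ X ∧
        (Fields K n Y).Finite ∧ Y ^ s ≤ ((Fields K n Y).ncard : ℝ) := by
  intro K _ _ n p hn hp hpn s hs
  obtain ⟨m, rfl⟩ := hpn
  have hm : m ≠ 0 := by
    rintro rfl
    omega
  have hn2 : 2 ≤ p * m := by
    have : 1 ≤ m := Nat.pos_of_ne_zero hm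
    nlinarith
  obtain ⟨e, -, h⟩ := Pool.Agent.Results.MP_bf81c2_nt.LinnikExponent.result
  obtain ⟨C, hC⟩ := h (p * m) hn2 (Module.finrank ℚ K)
  have hup : ∀ X : ℝ, 1 ≤ X →
      ((Pool.Agent.Helper313LB.Fld K (AlgebraicClosure K) (p * m) X).ncard : ℝ) ≤
        C * X ^ e (p * m) := fun X hX => (hC K rfl X hX).2
  obtain ⟨F, hF⟩ := Pool.Agent.Helper313LB.exists_ext K (AlgebraicClosure K) m hm
  have hfd : FiniteDimensional K F := FiniteDimensional.of_finrank_pos (by omega)
  have hnf : NumberField F := Pool.Agent.Helper313LB.nf_of_fd F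
  have : Normal F (AlgebraicClosure K) := Normal.tower_top_of_normal K F (AlgebraicClosure K)
  have hnm : Module.finrank K F * p = p * m := by rw [hF, mul_comm]
  have hup' := Pool.Agent.H26.Mass.up_tower F (p := p) (C := C) (A := e (p * m)) (by
    rw [hnm]
    exact hup)
  obtain ⟨δ, hδ, hwin⟩ := Pool.Agent.H26.Big.Q_window (F := F) (Ω := AlgebraicClosure K)
    (Q := fun L => Pool.Agent.Helper313SN.Full L) (fun L h => h) hp
    (Pool.Agent.Helper313SN.exists_base F (AlgebraicClosure K) hp) hup' hs
  refine ⟨δ, hδ, ?_⟩
  filter_upwards [hwin] with X ⟨Y, hXY, hYX, hY⟩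
  refine ⟨Y, hXY, hYX, Pool.Agent.Helper313LB.finite_Fld K (AlgebraicClosure K) Y, hY.trans ?_⟩
  have h1 := Set.ncard_le_ncard (Pool.Agent.H26.Mass.QFld_subset
    (F := F) (Ω := AlgebraicClosure K) (fun L => Pool.Agent.Helper313SN.Full L) p Y)
    (Pool.Agent.Helper313LB.finite_Fld F (AlgebraicClosure K) Y)
  have h2 := Pool.Agent.Helper313LB.ncard_Fld_le F p Y
  rw [hnm] at h2
  exact Nat.cast_le.2 (h1.trans h2)

end Pool.Agent.Results.MP_bf81c2_nt.DivisorWindow
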